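import Mathlib

set_option autoImplicit false

/-!
The group `F = FreeGroup (ZMod 2)` with its height function, the action of
`K = (ℤ → ZMod 2)` on `F` by flipping letters at given heights, and the crossed
homomorphism `cc : F → K`.
-/

namespace Pool.Agent.Helper23.Twist

/-- the free group on two letters, indexed by `ZMod 2` -/
abbrev F : Type := FreeGroup (ZMod 2)

/-- two-sided binary sequences -/
abbrev K : Type := ℤ → ZMod 2

/-- shift -/
def sh (n : ℤ) (k : K) : K := fun h => k (h + n)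

@[simp] lemma sh_apply (n : ℤ) (k : K) (h : ℤ) : sh n k h = k (h + n) := rfl

@[simp] lemma sh_zero (k : K) : sh 0 k = k := by ext h; simp

lemma sh_sh (n m : ℤ) (k : K) : sh n (sh m k) = sh (n + m) k := by
  funext h; simp only [sh_apply]; congr 1; ring

lemma sh_add (n : ℤ) (k l : K) : sh n (k + l) = sh n k + sh n l := by
  funext h; simp

@[simp] lemma sh_zero' (n : ℤ) : sh n (0 : K) = 0 := by
  funext h; simp

lemma K_add_self (k : K) : k + k = 0 := by
  funext h
  exact CharTwo.add_self_eq_zero (k h)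

/-- the shift action of `ℤ` on `K → F` -/
def phi : Multiplicative ℤ →* MulAut (K → F) where
  toFun n :=
    { toFun := fun u k => u (sh n.toAdd k)
      invFun := fun u k => u (sh (-n.toAdd) k)
      left_inv := fun u => by
        funext k; simp [sh_sh]
      right_inv := fun u => by
        funext k; simp [sh_sh]
      map_mul' := fun u v => by
        funext k; simp }
  map_one' := by
    ext u k; simp
  map_mul' n m := by
    ext u k
    simp only [MulEquiv.coe_mk, Equiv.coe_fn_mk, MulAut.mul_apply, toAdd_mul, sh_sh]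
    rw [add_comm]

@[simp] lemma phi_apply (n : Multiplicative ℤ) (u : K → F) (k : K) :
    phi n u k = u (sh n.toAdd k) := rfl

/-- the universal map encoding height and the flip action -/
def Theta : F →* (K → F) ⋊[phi] Multiplicative ℤ :=
  FreeGroup.lift fun i => ⟨fun k => FreeGroup.of (i + k 1), Multiplicative.ofAdd 1⟩

/-- height -/
def ht (p : F) : ℤ := (Theta p).right.toAdd

/-- action of `K` on `F` -/
def act (k : K) (p : F) : F := (Theta p).left k

@[simp] lemma ht_one : ht 1 = 0 := by simp [ht]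

@[simp] lemma ht_mul (p q : F) : ht (p * q) = ht p + ht q := by
  simp [ht]

@[simp] lemma ht_inv (p : F) : ht p⁻¹ = - ht p := by
  simp [ht]

@[simp] lemma ht_of (i : ZMod 2) : ht (FreeGroup.of i) = 1 := by
  simp [ht, Theta]

@[simp] lemma act_one (k : K) : act k 1 = 1 := by simp [act]

lemma act_mul (k : K) (p q : F) : act k (p * q) = act k p * act (sh (ht p) k) q := by
  simp [act, ht]

@[simp] lemma act_of (k : K) (i : ZMod 2) :
    act k (FreeGroup.of i) = FreeGroup.of (i + k 1) := by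
  simp [act, Theta]

lemma act_inv (k : K) (p : F) : act k p⁻¹ = (act (sh (-ht p) k) p)⁻¹ := by
  have h := act_mul (sh (-ht p) k) p p⁻¹
  rw [mul_inv_cancel, act_one, sh_sh] at h
  simp only [add_neg_cancel, sh_zero] at h
  exact eq_inv_of_mul_eq_one_right h.symm

/-- induction principle on the free group -/
lemma F_induction {C : F → Prop} (h1 : C 1) (hof : ∀ i, C (FreeGroup.of i))
    (hinv : ∀ p, C p → C p⁻¹) (hmul : ∀ p q, C p → C q → C (p * q)) (p : F) : C p := by
  induction p using FreeGroup.induction_on with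
  | C1 => exact h1
  | of i => exact hof i
  | inv_of i h => exact hinv _ h
  | mul p q hp hq => exact hmul p q hp hq

@[simp] lemma ht_act (k : K) (p : F) : ht (act k p) = ht p := by
  revert k
  refine F_induction (C := fun p => ∀ k, ht (act k p) = ht p) ?_ ?_ ?_ ?_ p
  · simp
  · simp
  · intro p hp k
    rw [act_inv, ht_inv, ht_inv, hp]
  · intro p q hp hq k
    rw [act_mul, ht_mul, ht_mul, hp, hq]

lemma act_act (k l : K) (p : F) : act k (act l p) = act (k + l) p := by
  revert k l
  refine F_induction (C := fun p => ∀ k l, act k (act l p) = act (k + l) p) ?_ ?_ ?_ ?_ p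
  · simp
  · intro i k l
    simp only [act_of, Pi.add_apply]
    congr 1; ring
  · intro p hp k l
    rw [act_inv l, act_inv k, act_inv (k + l), ht_act, hp, sh_add]
  · intro p q hp hq k l
    rw [act_mul l, act_mul k, act_mul (k + l), ht_act, hp, hq, sh_add]

@[simp] lemma act_zero (p : F) : act 0 p = p := by
  refine F_induction (C := fun p => act 0 p = p) ?_ ?_ ?_ ?_ p
  · simp
  · simp
  · intro p hp
    rw [act_inv, sh_zero', hp]
  · intro p q hp hq
    rw [act_mul, sh_zero', hp, hq]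

/-- shift action on `K` in multiplicative form, by `-n` -/
def psi : Multiplicative ℤ →* MulAut (Multiplicative K) where
  toFun n :=
    { toFun := fun u => Multiplicative.ofAdd (sh (-n.toAdd) u.toAdd)
      invFun := fun u => Multiplicative.ofAdd (sh (n.toAdd) u.toAdd)
      left_inv := fun u => by
        apply Multiplicative.toAdd.injective; simp [sh_sh]
      right_inv := fun u => by
        apply Multiplicative.toAdd.injective; simp [sh_sh]
      map_mul' := fun u v => by
        apply Multiplicative.toAdd.injective; simp [sh_add] }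
  map_one' := by
    ext u; apply Multiplicative.toAdd.injective; simp
  map_mul' n m := by
    apply MulEquiv.ext
    intro u
    apply Multiplicative.toAdd.injective
    change sh (-(n * m).toAdd) u.toAdd = sh (-n.toAdd) (sh (-m.toAdd) u.toAdd)
    rw [sh_sh, toAdd_mul, neg_add]

@[simp] lemma psi_apply (n : Multiplicative ℤ) (u : Multiplicative K) :
    psi n u = Multiplicative.ofAdd (sh (-n.toAdd) u.toAdd) := rfl

/-- unit vector scaled -/
def ee (j : ℤ) (i : ZMod 2) : K := fun h => if h = j then i else 0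

/-- crossed homomorphism, packaged -/
def Rho : F →* (Multiplicative K) ⋊[psi] Multiplicative ℤ :=
  FreeGroup.lift fun i => ⟨Multiplicative.ofAdd (ee 1 i), Multiplicative.ofAdd 1⟩

lemma Rho_right (p : F) : (Rho p).right = Multiplicative.ofAdd (ht p) := by
  refine F_induction (C := fun p => (Rho p).right = Multiplicative.ofAdd (ht p)) ?_ ?_ ?_ ?_ p
  · simp
  · intro i; simp [Rho]
  · intro p hp
    rw [map_inv, SemidirectProduct.inv_right, hp, ht_inv, ofAdd_neg]
  · intro p q hp hq
    rw [map_mul, SemidirectProduct.mul_right, hp, hq, ht_mul, ofAdd_add]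

/-- the crossed homomorphism -/
def cc (p : F) : K := sh (ht p) (Rho p).left.toAdd

@[simp] lemma cc_one : cc 1 = 0 := by simp [cc]

lemma cc_mul (p q : F) : cc (p * q) = sh (ht q) (cc p) + cc q := by
  simp only [cc, map_mul, SemidirectProduct.mul_left, toAdd_mul, Rho_right, psi_apply,
    toAdd_ofAdd, ht_mul, sh_add, sh_sh]
  congr 2
  · ring
  · ring

@[simp] lemma cc_of (i : ZMod 2) : cc (FreeGroup.of i) = ee 0 i := by
  funext h
  simp only [cc, Rho, FreeGroup.lift_apply_of, toAdd_ofAdd, ht_of, sh_apply, ee]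
  congr 1
  simp

lemma cc_inv (p : F) : cc p⁻¹ = sh (-ht p) (cc p) := by
  have h := cc_mul p p⁻¹
  rw [mul_inv_cancel, cc_one, ht_inv] at h
  have h2 : cc p⁻¹ = - sh (-ht p) (cc p) := by
    rw [eq_neg_iff_add_eq_zero, add_comm]; exact h.symm
  rw [h2]
  funext x
  simp only [Pi.neg_apply]
  exact CharTwo.neg_eq _

/-- step function -/
def st (h : ℤ) : ZMod 2 := if h ≤ 0 then 1 else 0

/-- the defect -/
def dd (k : K) (n : ℤ) : K := fun h => k (h + n) * (st h - st (h + n))

lemma dd_add (k : K) (n m : ℤ) : dd k (n + m) = sh m (dd k n) + dd (sh n k) m := by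
  funext h
  simp only [dd, sh_apply, Pi.add_apply]
  have e1 : h + m + n = h + (n + m) := by ring
  rw [e1]
  ring

lemma dd_zero (k : K) : dd k 0 = 0 := by
  funext h; simp [dd]

lemma cc_act (k : K) (p : F) : cc (act k p) = cc p + dd k (ht p) := by
  revert k
  refine F_induction (C := fun p => ∀ k, cc (act k p) = cc p + dd k (ht p)) ?_ ?_ ?_ ?_ p
  · intro k; simp [dd_zero]
  · intro i k
    funext h
    simp only [act_of, cc_of, ht_of, ee, dd, Pi.add_apply, st]
    by_cases h0 : h = 0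
    · subst h0; simp
    · rcases lt_or_gt_of_ne h0 with h1 | h1
      · have h2 : h ≤ 0 := by omega
        have h3 : h + 1 ≤ 0 := by omega
        simp [h0, h2, h3]
      · have h2 : ¬ (h ≤ 0) := by omega
        have h3 : ¬ (h + 1 ≤ 0) := by omega
        simp [h0, h2, h3]
  · intro p hp k
    rw [act_inv, cc_inv, ht_act, hp, cc_inv, ht_inv, sh_add]
    congr 1
    have h := dd_add (sh (-ht p) k) (ht p) (-ht p)
    rw [add_neg_cancel, dd_zero, sh_sh, add_neg_cancel, sh_zero] at h
    have h2 := K_add_self (dd k (-ht p))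
    calc sh (-ht p) (dd (sh (-ht p) k) (ht p))
        = sh (-ht p) (dd (sh (-ht p) k) (ht p)) + (dd k (-ht p) + dd k (-ht p)) := by
          rw [h2, add_zero]
      _ = (sh (-ht p) (dd (sh (-ht p) k) (ht p)) + dd k (-ht p)) + dd k (-ht p) := by
          rw [add_assoc]
      _ = dd k (-ht p) := by rw [← h, zero_add]
  · intro p q hp hq k
    rw [act_mul, cc_mul, ht_act, hp, hq, cc_mul, ht_mul, dd_add, sh_add]
    abel

/-- the base group: pairs in `F × F` with equal heights -/
def Gam : Subgroup (F × F) where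
  carrier := {x | ht x.1 = ht x.2}
  mul_mem' := by
    intro a b ha hb
    simp only [Set.mem_ofPred_eq, Prod.fst_mul, Prod.snd_mul, ht_mul] at *
    rw [ha, hb]
  one_mem' := by simp
  inv_mem' := by
    intro a ha
    simp only [Set.mem_ofPred_eq, Prod.fst_inv, Prod.snd_inv, ht_inv] at *
    rw [ha]

/-- height on `Gam` -/
def hg (x : Gam) : ℤ := ht x.1.1

lemma hg_eq (x : Gam) : ht x.1.2 = hg x := x.2.symm

@[simp] lemma hg_mul (x y : Gam) : hg (x * y) = hg x + hg y := by simp [hg]
@[simp] lemma hg_one : hg 1 = 0 := by simp [hg]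
@[simp] lemma hg_inv (x : Gam) : hg x⁻¹ = - hg x := by simp [hg]

/-- action of `K` on `Gam` -/
def ka (k : K) (x : Gam) : Gam :=
  ⟨(act k x.1.1, act k x.1.2), by
    show ht _ = ht _
    rw [ht_act, ht_act]; exact x.2⟩

@[simp] lemma hg_ka (k : K) (x : Gam) : hg (ka k x) = hg x := by simp [hg, ka]

lemma ka_mul (k : K) (x y : Gam) : ka k (x * y) = ka k x * ka (sh (hg x) k) y := by
  apply Subtype.ext
  apply Prod.ext
  · simp only [ka, Subgroup.coe_mul, Prod.fst_mul, act_mul, hg]
  · simp only [ka, Subgroup.coe_mul, Prod.snd_mul, act_mul, ← hg_eq]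

@[simp] lemma ka_one (k : K) : ka k 1 = 1 := by
  apply Subtype.ext; apply Prod.ext <;> simp [ka]

@[simp] lemma ka_zero (x : Gam) : ka 0 x = x := by
  apply Subtype.ext; apply Prod.ext <;> simp [ka]

lemma ka_ka (k l : K) (x : Gam) : ka k (ka l x) = ka (k + l) x := by
  apply Subtype.ext; apply Prod.ext <;> simp [ka, act_act]

lemma ka_inv (k : K) (x : Gam) : ka k x⁻¹ = (ka (sh (-hg x) k) x)⁻¹ := by
  have h := ka_mul (sh (-hg x) k) x x⁻¹
  rw [mul_inv_cancel, ka_one, sh_sh] at h
  simp only [add_neg_cancel, sh_zero] at h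
  exact eq_inv_of_mul_eq_one_right h.symm

/-- the invariant crossed homomorphism on `Gam` -/
def kap (x : Gam) : K := cc x.1.1 + cc x.1.2

@[simp] lemma kap_one : kap 1 = 0 := by simp [kap]

lemma kap_mul (x y : Gam) : kap (x * y) = sh (hg y) (kap x) + kap y := by
  simp only [kap, Subgroup.coe_mul, Prod.fst_mul, Prod.snd_mul, cc_mul, sh_add, hg_eq]
  simp only [hg]
  abel

lemma kap_ka (k : K) (x : Gam) : kap (ka k x) = kap x := by
  simp only [kap, ka, cc_act, hg_eq]
  simp only [hg]
  have h := K_add_self (dd k (ht x.1.1))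
  calc cc x.1.1 + dd k (ht x.1.1) + (cc x.1.2 + dd k (ht x.1.1))
      = cc x.1.1 + cc x.1.2 + (dd k (ht x.1.1) + dd k (ht x.1.1)) := by abel
    _ = _ := by rw [h, add_zero]

lemma kap_inv (x : Gam) : kap x⁻¹ = sh (-hg x) (kap x) := by
  have h := kap_mul x x⁻¹
  rw [mul_inv_cancel, kap_one, hg_inv] at h
  calc kap x⁻¹ = (sh (-hg x) (kap x) + sh (-hg x) (kap x)) + kap x⁻¹ := by
        rw [K_add_self, zero_add]
    _ = sh (-hg x) (kap x) + (sh (-hg x) (kap x) + kap x⁻¹) := by rw [add_assoc]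
    _ = _ := by rw [← h, add_zero]

/-- The ambient group `G = Gam × K` (a Zappa-Szep product). -/
@[ext] structure GG : Type where
  g : Gam
  k : K

namespace GG

instance : Mul GG := ⟨fun a b => ⟨a.g * ka a.k b.g, sh (hg b.g) a.k + b.k⟩⟩
instance : One GG := ⟨⟨1, 0⟩⟩
instance : Inv GG := ⟨fun a => ⟨ka a.k a.g⁻¹, sh (-hg a.g) a.k⟩⟩

@[simp] lemma mul_g (a b : GG) : (a * b).g = a.g * ka a.k b.g := rfl
@[simp] lemma mul_k (a b : GG) : (a * b).k = sh (hg b.g) a.k + b.k := rfl
@[simp] lemma one_g : (1 : GG).g = 1 := rfl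
@[simp] lemma one_k : (1 : GG).k = 0 := rfl
lemma inv_g (a : GG) : (a⁻¹).g = ka a.k a.g⁻¹ := rfl
lemma inv_k (a : GG) : (a⁻¹).k = sh (-hg a.g) a.k := rfl

instance : Group GG := Group.ofLeftAxioms
  (by
    intro a b c
    apply GG.ext
    · simp only [mul_g, mul_k, ka_mul, mul_assoc]
      congr 2
      rw [ka_ka, ← ka_ka, ka_ka]
    · simp only [mul_g, mul_k, hg_mul, hg_ka, sh_add, sh_sh, add_assoc]
      congr 2
      rw [add_comm])
  (by
    intro a
    apply GG.ext
    · simp
    · simp)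
  (by
    intro a
    apply GG.ext
    · simp only [mul_g, inv_g, inv_k, one_g]
      have h := ka_mul a.k a.g⁻¹ a.g
      rw [inv_mul_cancel, ka_one, hg_inv] at h
      exact h.symm
    · simp only [mul_k, inv_k, one_k, sh_sh, add_neg_cancel, sh_zero]
      exact K_add_self _)

end GG

/-- the untwisted complement -/
def GamG : Subgroup GG where
  carrier := {a | a.k = 0}
  mul_mem' := by
    intro a b ha hb
    simp only [Set.mem_ofPred_eq, GG.mul_k] at *
    rw [ha, hb]; simp
  one_mem' := by simp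
  inv_mem' := by
    intro a ha
    simp only [Set.mem_ofPred_eq, GG.inv_k] at *
    rw [ha]; simp

/-- the twisted complement -/
def LamG : Subgroup GG where
  carrier := {a | a.k = kap a.g}
  mul_mem' := by
    intro a b ha hb
    simp only [Set.mem_ofPred_eq, GG.mul_k, GG.mul_g] at *
    rw [kap_mul, kap_ka, hg_ka, ← ha, ← hb]
  one_mem' := by simp
  inv_mem' := by
    intro a ha
    simp only [Set.mem_ofPred_eq, GG.inv_k, GG.inv_g] at *
    rw [kap_ka, kap_inv, ← ha]

/-- the element of the twisted group over `x` -/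
def toLam (x : Gam) : LamG := ⟨⟨x, kap x⟩, rfl⟩

@[simp] lemma toLam_g (x : Gam) : (toLam x).1.g = x := rfl
@[simp] lemma toLam_k (x : Gam) : (toLam x).1.k = kap x := rfl

lemma toLam_mul (x y : Gam) : toLam x * toLam y = toLam (x * ka (kap x) y) := by
  apply Subtype.ext
  apply GG.ext
  · simp
  · simp only [Subgroup.coe_mul, GG.mul_k, toLam_k, toLam_g, kap_mul, kap_ka, hg_ka]

lemma toLam_one : toLam 1 = 1 := by
  apply Subtype.ext
  apply GG.ext
  · simp
  · simp

lemma toLam_inv (x : Gam) : (toLam x)⁻¹ = toLam (ka (kap x) x⁻¹) := by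
  rw [inv_eq_iff_mul_eq_one, toLam_mul, ka_ka, K_add_self, ka_zero, mul_inv_cancel, toLam_one]

/-- the identity bijection between the two groups -/
def eqv : Gam ≃ LamG where
  toFun := toLam
  invFun a := a.1.g
  left_inv _ := rfl
  right_inv a := by
    apply Subtype.ext
    apply GG.ext
    · rfl
    · exact a.2.symm

@[simp] lemma eqv_apply (x : Gam) : eqv x = toLam x := rfl

/-- generators of the base group -/
def sgen (i j : ZMod 2) : Gam := ⟨(FreeGroup.of i, FreeGroup.of j), by
  show ht _ = ht _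
  simp⟩

@[simp] lemma hg_sgen (i j : ZMod 2) : hg (sgen i j) = 1 := by simp [hg, sgen]

lemma ka_sgen (k : K) (i j : ZMod 2) : ka k (sgen i j) = sgen (i + k 1) (j + k 1) := by
  apply Subtype.ext
  apply Prod.ext <;> simp [ka, sgen]

/-- the finite symmetric generating set of the base group -/
def S0 : Set Gam := {x | ∃ i j, x = sgen i j ∨ x = (sgen i j)⁻¹}

lemma S0_finite : S0.Finite := by
  have h : S0 ⊆ (Set.range (fun p : ZMod 2 × ZMod 2 => sgen p.1 p.2)) ∪
      (Set.range (fun p : ZMod 2 × ZMod 2 => (sgen p.1 p.2)⁻¹)) := by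
    rintro x ⟨i, j, h | h⟩
    · left; exact ⟨(i, j), h.symm⟩
    · right; exact ⟨(i, j), h.symm⟩
  exact Set.Finite.subset ((Set.finite_range _).union (Set.finite_range _)) h

lemma S0_inv {x : Gam} (hx : x ∈ S0) : x⁻¹ ∈ S0 := by
  obtain ⟨i, j, h | h⟩ := hx
  · exact ⟨i, j, Or.inr (by rw [h])⟩
  · exact ⟨i, j, Or.inl (by rw [h, inv_inv])⟩

lemma S0_ka {x : Gam} (k : K) (hx : x ∈ S0) : ka k x ∈ S0 := by
  obtain ⟨i, j, h | h⟩ := hx
  · exact ⟨i + k 1, j + k 1, Or.inl (by rw [h, ka_sgen])⟩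
  · refine ⟨i + (sh (-1) k) 1, j + (sh (-1) k) 1, Or.inr ?_⟩
    rw [h, ka_inv, hg_sgen, ka_sgen]

lemma S0_ka_iff {x : Gam} (k : K) : ka k x ∈ S0 ↔ x ∈ S0 := by
  constructor
  · intro h
    have := S0_ka k h
    rwa [ka_ka, K_add_self, ka_zero] at this
  · exact S0_ka k

/-- first coordinate section -/
def f1 : F →* Gam := FreeGroup.lift fun i => sgen i 0
/-- second coordinate section -/
def f2 : F →* Gam := FreeGroup.lift fun i => sgen 0 i

lemma f1_fst (p : F) : (f1 p).1.1 = p := by
  refine F_induction (C := fun p => (f1 p).1.1 = p) ?_ ?_ ?_ ?_ p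
  · simp
  · intro i; simp [f1, sgen]
  · intro p hp; simp [hp]
  · intro p q hp hq; simp [hp, hq]

lemma f2_snd (p : F) : (f2 p).1.2 = p := by
  refine F_induction (C := fun p => (f2 p).1.2 = p) ?_ ?_ ?_ ?_ p
  · simp
  · intro i; simp [f2, sgen]
  · intro p hp; simp [hp]
  · intro p q hp hq; simp [hp, hq]

lemma f1_snd (p : F) : (f1 p).1.2 = FreeGroup.of 0 ^ (ht p) := by
  refine F_induction (C := fun p => (f1 p).1.2 = FreeGroup.of 0 ^ (ht p)) ?_ ?_ ?_ ?_ p
  · simp
  · intro i; simp [f1, sgen]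
  · intro p hp; simp [hp]
  · intro p q hp hq; simp [hp, hq, zpow_add]

lemma f2_fst (p : F) : (f2 p).1.1 = FreeGroup.of 0 ^ (ht p) := by
  refine F_induction (C := fun p => (f2 p).1.1 = FreeGroup.of 0 ^ (ht p)) ?_ ?_ ?_ ?_ p
  · simp
  · intro i; simp [f2, sgen]
  · intro p hp; simp [hp]
  · intro p q hp hq; simp [hp, hq, zpow_add]

lemma ht_zpow (p : F) (n : ℤ) : ht (p ^ n) = n * ht p := by
  have h : ht (p ^ n) = (Theta (p ^ n)).right.toAdd := rfl
  rw [h, map_zpow]
  have h2 : ((Theta p) ^ n).right = (Theta p).right ^ n :=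
    map_zpow (SemidirectProduct.rightHom (φ := phi)) (Theta p) n
  rw [h2, toAdd_zpow]
  simp [ht]

lemma gen_decomp (x : Gam) :
    x = f1 x.1.1 * (f1 (FreeGroup.of 0 ^ (hg x)))⁻¹ * f2 x.1.2 := by
  apply Subtype.ext
  apply Prod.ext
  · simp only [Subgroup.coe_mul, Subgroup.coe_inv, Prod.fst_mul, Prod.fst_inv, f1_fst, f2_fst,
      hg_eq]
    group
  · simp only [Subgroup.coe_mul, Subgroup.coe_inv, Prod.snd_mul, Prod.snd_inv, f1_snd, f2_snd,
      ht_zpow, ht_of, mul_one]
    simp only [hg]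
    group

lemma f1_mem (p : F) : f1 p ∈ Subgroup.closure S0 := by
  refine F_induction (C := fun p => f1 p ∈ Subgroup.closure S0) ?_ ?_ ?_ ?_ p
  · simp
  · intro i
    apply Subgroup.subset_closure
    exact ⟨i, 0, Or.inl (by simp [f1])⟩
  · intro p hp; rw [map_inv]; exact inv_mem hp
  · intro p q hp hq; rw [map_mul]; exact mul_mem hp hq

lemma f2_mem (p : F) : f2 p ∈ Subgroup.closure S0 := by
  refine F_induction (C := fun p => f2 p ∈ Subgroup.closure S0) ?_ ?_ ?_ ?_ p
  · simp
  · intro i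
    apply Subgroup.subset_closure
    exact ⟨0, i, Or.inl (by simp [f2])⟩
  · intro p hp; rw [map_inv]; exact inv_mem hp
  · intro p q hp hq; rw [map_mul]; exact mul_mem hp hq

lemma S0_gen : Subgroup.closure S0 = ⊤ := by
  rw [eq_top_iff]
  intro x _
  rw [gen_decomp x]
  exact mul_mem (mul_mem (f1_mem _) (inv_mem (f1_mem _))) (f2_mem _)

/-- the generating set of the twisted group -/
def T0 : Set LamG := toLam '' S0

lemma T0_finite : T0.Finite := S0_finite.image _

lemma T0_inv {x : LamG} (hx : x ∈ T0) : x⁻¹ ∈ T0 := by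
  obtain ⟨y, hy, rfl⟩ := hx
  rw [toLam_inv]
  exact ⟨_, S0_ka _ (S0_inv hy), rfl⟩

/-- being a product of exactly `n` elements of `S` -/
def IsProd {G : Type} [Group G] (S : Set G) (n : ℕ) (g : G) : Prop :=
  ∃ l : List G, l.length = n ∧ (∀ a ∈ l, a ∈ S) ∧ l.prod = g

lemma IsProd.mul_right {G : Type} [Group G] {S : Set G} {n : ℕ} {g a : G}
    (h : IsProd S n g) (ha : a ∈ S) : IsProd S (n + 1) (g * a) := by
  obtain ⟨l, h1, h2, h3⟩ := h
  refine ⟨l ++ [a], by simp [h1], ?_, by simp [h3]⟩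
  intro b hb
  rw [List.mem_append, List.mem_singleton] at hb
  rcases hb with hb | rfl
  · exact h2 b hb
  · exact ha

lemma IsProd.mul {G : Type} [Group G] {S : Set G} {n m : ℕ} {g a : G}
    (h : IsProd S n g) (ha : IsProd S m a) : IsProd S (n + m) (g * a) := by
  obtain ⟨l, h1, h2, h3⟩ := h
  obtain ⟨l', h1', h2', h3'⟩ := ha
  refine ⟨l ++ l', by simp [h1, h1'], ?_, by simp [h3, h3']⟩
  intro b hb
  rw [List.mem_append] at hb
  rcases hb with hb | hb
  · exact h2 b hb
  · exact h2' b hb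

lemma toLam_mul_gen (x s : Gam) (hs : s ∈ S0) :
    ∃ t ∈ T0, toLam (x * s) = toLam x * t := by
  refine ⟨toLam (ka (kap x) s), ⟨_, S0_ka _ hs, rfl⟩, ?_⟩
  rw [toLam_mul, ka_ka, K_add_self, ka_zero]

lemma transfer (n : ℕ) : ∀ x : Gam, IsProd S0 n x → IsProd T0 n (toLam x) := by
  induction n with
  | zero =>
    rintro x ⟨l, h1, _, h3⟩
    rw [List.length_eq_zero_iff] at h1
    subst h1
    refine ⟨[], rfl, by simp, ?_⟩
    rw [← h3]; simp [toLam_one]
  | succ n ih =>
    rintro x ⟨l, h1, h2, h3⟩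
    rcases List.eq_nil_or_concat l with h | ⟨l', a, h⟩
    · subst h; simp at h1
    · subst h
      simp only [List.concat_eq_append, List.length_append, List.length_singleton,
        Nat.add_right_cancel_iff] at h1
      have hx : x = l'.prod * a := by rw [← h3]; simp
      obtain ⟨t, ht, h4⟩ := toLam_mul_gen l'.prod a (h2 a (by simp))
      rw [hx, h4]
      apply IsProd.mul_right _ ht
      apply ih
      exact ⟨l', h1, fun b hb => h2 b (by simp [hb]), rfl⟩

lemma exists_isProd {G : Type} [Group G] {S : Set G} (hinv : ∀ a ∈ S, a⁻¹ ∈ S)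
    (hgen : Subgroup.closure S = ⊤) (g : G) : ∃ n, IsProd S n g := by
  have hg : g ∈ Subgroup.closure S := by rw [hgen]; trivial
  induction hg using Subgroup.closure_induction with
  | mem x hx => exact ⟨1, [x], rfl, by simpa using hx, by simp⟩
  | one => exact ⟨0, [], rfl, by simp, by simp⟩
  | mul x y _ _ hx hy =>
    obtain ⟨n, hn⟩ := hx
    obtain ⟨m, hm⟩ := hy
    exact ⟨n + m, hn.mul hm⟩
  | inv x _ hx =>
    obtain ⟨n, l, h1, h2, h3⟩ := hx
    refine ⟨n, (l.map (·⁻¹)).reverse, by simp [h1], ?_, ?_⟩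
    · intro a ha
      simp only [List.mem_reverse, List.mem_map] at ha
      obtain ⟨b, hb, rfl⟩ := ha
      exact hinv b (h2 b hb)
    · rw [← List.prod_inv_reverse, h3]

lemma IsProd_mem_closure {G : Type} [Group G] {S : Set G} {n : ℕ} {g : G}
    (h : IsProd S n g) : g ∈ Subgroup.closure S := by
  obtain ⟨l, _, h2, h3⟩ := h
  rw [← h3]
  exact list_prod_mem fun a ha => Subgroup.subset_closure (h2 a ha)

lemma T0_gen : Subgroup.closure T0 = ⊤ := by
  rw [eq_top_iff]
  intro x _
  obtain ⟨n, hn⟩ := exists_isProd (S := S0) (fun _ h => S0_inv h) S0_gen x.1.g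
  have h2 := transfer n _ hn
  have h3 : toLam x.1.g = x := eqv.right_inv x
  rw [h3] at h2
  exact IsProd_mem_closure h2

/-- adjacency is the same for both groups -/
lemma adj_iff (x y : Gam) : x⁻¹ * y ∈ S0 ↔ (toLam x)⁻¹ * toLam y ∈ T0 := by
  have h1 : (toLam x)⁻¹ * toLam y = toLam (ka (kap x) (x⁻¹ * y)) := by
    rw [inv_mul_eq_iff_eq_mul, toLam_mul, ka_ka, K_add_self, ka_zero, mul_inv_cancel_left]
  rw [h1]
  constructor
  · intro h
    exact ⟨_, S0_ka _ h, rfl⟩
  · rintro ⟨z, hz, h⟩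
    have h2 : z = ka (kap x) (x⁻¹ * y) := eqv.injective h
    rw [h2, S0_ka_iff] at hz
    exact hz

/-! ### The finite subgroups of the twisted group -/

/-- the letter `b` -/
def bb : F := FreeGroup.of 0

@[simp] lemma ht_bb_pow (n : ℕ) : ht (bb ^ n) = n := by
  induction n with
  | zero => simp
  | succ n ih => rw [pow_succ, ht_mul, ih]; simp [bb]

@[simp] lemma cc_bb_pow (n : ℕ) : cc (bb ^ n) = 0 := by
  induction n with
  | zero => simp
  | succ n ih =>
    rw [pow_succ, cc_mul, ih]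
    simp only [bb, cc_of, sh_zero', zero_add]
    funext h; simp [ee]

lemma act_bb_succ (k : K) (n : ℕ) :
    act k (bb ^ (n + 1)) = act k (bb ^ n) * FreeGroup.of (k (n + 1)) := by
  rw [pow_succ, act_mul, ht_bb_pow]
  simp only [bb, act_of, sh_apply, zero_add]
  rw [add_comm]

lemma act_bb_congr (k l : K) (n : ℕ) (h : ∀ j : ℤ, 0 < j → j ≤ n → k j = l j) :
    act k (bb ^ n) = act l (bb ^ n) := by
  induction n with
  | zero => simp
  | succ n ih =>
    rw [act_bb_succ, act_bb_succ, ih (fun j h1 h2 => h j h1 (by push_cast; omega)),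
      h (n + 1) (by omega) (by push_cast; omega)]

/-- elements of the finite subgroups -/
def mm (n : ℕ) (k : K) : Gam := ⟨(bb ^ n * (act k (bb ^ n))⁻¹, 1), by
  show ht _ = ht _
  simp⟩

@[simp] lemma hg_mm (n : ℕ) (k : K) : hg (mm n k) = 0 := by simp [hg, mm]

/-- restriction to heights in `(0, n]` -/
def cut (n : ℕ) (k : K) : K := fun h => if 0 < h ∧ h ≤ n then k h else 0

lemma cut_add (n : ℕ) (k l : K) : cut n (k + l) = cut n k + cut n l := by
  funext h
  simp only [cut, Pi.add_apply]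
  split_ifs <;> simp

lemma kap_mm (n : ℕ) (k : K) : kap (mm n k) = cut n k := by
  have h1 : kap (mm n k) = cc (bb ^ n * (act k (bb ^ n))⁻¹) + cc 1 := rfl
  rw [h1, cc_mul, cc_one, add_zero, cc_bb_pow, sh_zero', zero_add, cc_inv, ht_act, cc_act,
    cc_bb_pow, zero_add, ht_bb_pow]
  funext h
  simp only [sh_apply, dd, cut, st]
  have e1 : h + -(n : ℤ) + n = h := by ring
  rw [e1]
  by_cases c1 : 0 < h ∧ h ≤ n
  · have c2 : h + -(n : ℤ) ≤ 0 := by omega
    have c3 : ¬ (h ≤ 0) := by omega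
    simp [c1, c2, c3]
  · rw [if_neg c1]
    by_cases c2 : h ≤ 0
    · have c3 : h + -(n : ℤ) ≤ 0 := by omega
      simp [c2, c3]
    · have c3 : ¬ (h + -(n : ℤ) ≤ 0) := by omega
      simp [c2, c3]

lemma mm_mul (n : ℕ) (k l : K) :
    toLam (mm n k) * toLam (mm n l) = toLam (mm n (k + l)) := by
  rw [toLam_mul]
  congr 1
  apply Subtype.ext
  apply Prod.ext
  · show bb ^ n * (act k (bb ^ n))⁻¹ * act (kap (mm n k)) (bb ^ n * (act l (bb ^ n))⁻¹)
      = bb ^ n * (act (k + l) (bb ^ n))⁻¹
    rw [act_mul, act_inv, ht_act, sh_sh, ht_bb_pow, act_act, kap_mm]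
    have e0 : -(n : ℤ) + n = 0 := by ring
    rw [e0, sh_zero]
    have e1 : act (cut n k) (bb ^ n) = act k (bb ^ n) := by
      apply act_bb_congr
      intro j h1 h2
      simp [cut, h1, h2]
    have e2 : act (cut n k + l) (bb ^ n) = act (k + l) (bb ^ n) := by
      apply act_bb_congr
      intro j h1 h2
      simp [cut, h1, h2]
    rw [e1, e2]
    group
  · show (1 : F) * act (kap (mm n k)) 1 = 1
    simp

lemma mm_zero (n : ℕ) : mm n 0 = 1 := by
  apply Subtype.ext
  apply Prod.ext
  · show bb ^ n * (act 0 (bb ^ n))⁻¹ = 1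
    simp
  · rfl

lemma mm_inv (n : ℕ) (k : K) : (toLam (mm n k))⁻¹ = toLam (mm n k) := by
  rw [inv_eq_iff_mul_eq_one, mm_mul, K_add_self, mm_zero, toLam_one]

/-- auxiliary elements -/
def uu (n : ℕ) (k : K) : Gam := ⟨(act k (bb ^ n), bb ^ n), by
  show ht _ = ht _
  simp⟩

lemma uu_succ (n : ℕ) (k : K) : uu (n + 1) k = uu n k * sgen (k (n + 1)) 0 := by
  apply Subtype.ext
  apply Prod.ext
  · show act k (bb ^ (n + 1)) = _
    rw [act_bb_succ]; rfl
  · show bb ^ (n + 1) = bb ^ n * FreeGroup.of 0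
    rw [pow_succ]; rfl

lemma uu_isProd (n : ℕ) (k : K) : IsProd S0 n (uu n k) := by
  induction n with
  | zero =>
    refine ⟨[], rfl, by simp, ?_⟩
    apply Subtype.ext
    apply Prod.ext <;> simp [uu]
  | succ n ih =>
    rw [uu_succ]
    exact ih.mul_right ⟨_, _, Or.inl rfl⟩

lemma IsProd.inv {G : Type} [Group G] {S : Set G} (hinv : ∀ a ∈ S, a⁻¹ ∈ S) {n : ℕ} {g : G}
    (h : IsProd S n g) : IsProd S n g⁻¹ := by
  obtain ⟨l, h1, h2, h3⟩ := h
  refine ⟨(l.map (·⁻¹)).reverse, by simp [h1], ?_, ?_⟩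
  · intro a ha
    simp only [List.mem_reverse, List.mem_map] at ha
    obtain ⟨b, hb, rfl⟩ := ha
    exact hinv b (h2 b hb)
  · rw [← List.prod_inv_reverse, h3]

lemma mm_isProd (n : ℕ) (k : K) : IsProd S0 (n + n) (mm n k) := by
  have h : mm n k = uu n 0 * (uu n k)⁻¹ := by
    apply Subtype.ext
    apply Prod.ext
    · show bb ^ n * (act k (bb ^ n))⁻¹ = act 0 (bb ^ n) * (act k (bb ^ n))⁻¹
      rw [act_zero]
    · show (1 : F) = bb ^ n * (bb ^ n)⁻¹
      rw [mul_inv_cancel]
  rw [h]
  exact (uu_isProd n 0).mul ((uu_isProd n k).inv fun _ h => S0_inv h)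

/-- extension of a finite binary vector -/
def extv (n : ℕ) (v : Fin n → ZMod 2) : K := fun h =>
  if hh : 0 < h ∧ h ≤ n then v ⟨(h - 1).toNat, by omega⟩ else 0

lemma extv_add (n : ℕ) (v w : Fin n → ZMod 2) : extv n (v + w) = extv n v + extv n w := by
  funext h
  simp only [extv, Pi.add_apply]
  split_ifs <;> simp

lemma cut_extv (n : ℕ) (v : Fin n → ZMod 2) : cut n (extv n v) = extv n v := by
  funext h
  simp only [cut, extv]
  split_ifs <;> rfl

lemma extv_inj (n : ℕ) : Function.Injective (extv n) := by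
  intro v w h
  funext i
  have h1 := congrFun h ((i : ℕ) + 1 : ℤ)
  have h2 : (0 : ℤ) < (i : ℕ) + 1 ∧ ((i : ℕ) : ℤ) + 1 ≤ n := by
    have := i.2
    omega
  simp only [extv, h2, and_self, dite_true] at h1
  have e : (((i : ℕ) : ℤ) + 1 - 1).toNat = i := by simp
  simpa [e] using h1

/-- the finite set -/
noncomputable def MM (n : ℕ) : Finset LamG :=
  (Finset.univ : Finset (Fin n → ZMod 2)).map
    ⟨fun v => toLam (mm n (extv n v)), by
      intro v w h
      have h1 : kap (mm n (extv n v)) = kap (mm n (extv n w)) := by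
        have := congrArg (fun a : LamG => a.1.k) h
        simpa using this
      rw [kap_mm, kap_mm, cut_extv, cut_extv] at h1
      exact extv_inj n h1⟩

lemma MM_card (n : ℕ) : (MM n).card = 2 ^ n := by
  simp [MM, ZMod.card]

lemma mem_MM (n : ℕ) (x : LamG) :
    x ∈ MM n ↔ ∃ v : Fin n → ZMod 2, toLam (mm n (extv n v)) = x := by
  unfold MM
  rw [Finset.mem_map]
  constructor
  · rintro ⟨v, _, h⟩
    exact ⟨v, h⟩
  · rintro ⟨v, h⟩
    exact ⟨v, Finset.mem_univ _, h⟩

lemma MM_closed (n : ℕ) {a x : LamG} (ha : a ∈ MM n) (hx : x ∈ MM n) : a⁻¹ * x ∈ MM n := by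
  rw [mem_MM] at *
  obtain ⟨v, rfl⟩ := ha
  obtain ⟨w, rfl⟩ := hx
  refine ⟨v + w, ?_⟩
  rw [mm_inv, mm_mul, extv_add]

lemma MM_one (n : ℕ) : (1 : LamG) ∈ MM n := by
  rw [mem_MM]
  refine ⟨0, ?_⟩
  have h : extv n 0 = 0 := by
    funext h
    simp [extv]
  rw [h, mm_zero, toLam_one]

lemma MM_isProd (n : ℕ) {x : LamG} (hx : x ∈ MM n) : IsProd T0 (n + n) x := by
  rw [mem_MM] at hx
  obtain ⟨v, rfl⟩ := hx
  exact transfer _ _ (mm_isProd n _)

end Pool.Agent.Helper23.Twist
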