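import Mathlib
import Pool.Agent.Helper23.Twist
import Pool.Agent.Helper23.Haagerup

set_option autoImplicit false

/-!
The trilinear estimate for the base group `Gam`.
-/

namespace Pool.Agent.Helper23.RDGam

open Pool.Agent.Helper23.Twist Pool.Agent.Helper23.Haagerup

/-- the length function on `Gam` -/
def LL (x : Gam) : ℕ := max x.1.1.norm x.1.2.norm

lemma LL_mul (x y : Gam) : LL (x * y) ≤ LL x + LL y := by
  unfold LL
  have h1 := FreeGroup.norm_mul_le x.1.1 y.1.1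
  have h2 := FreeGroup.norm_mul_le x.1.2 y.1.2
  simp only [Subgroup.coe_mul, Prod.fst_mul, Prod.snd_mul]
  omega

lemma LL_one : LL 1 = 0 := by simp [LL]

/-- splitting types -/
def TT (r : ℕ) : Finset (ℕ × ℕ × ℕ × ℕ) :=
  (Finset.range (r + 1)) ×ˢ (Finset.range (r + 1)) ×ˢ (Finset.range (r + 1)) ×ˢ
    (Finset.range (r + 1))

lemma TT_card (r : ℕ) : ((TT r).card : ℝ) = ((r : ℝ) + 1) ^ 4 := by
  simp only [TT, Finset.card_product, Finset.card_range]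
  push_cast
  ring

/-- initial segments, for the left factor -/
def PP (t : ℕ × ℕ × ℕ × ℕ) (x : F × F) : F × F := (pre t.1 x.1, pre t.2.1 x.2)
/-- initial segments, for the right factor -/
def QQ (t : ℕ × ℕ × ℕ × ℕ) (x : F × F) : F × F := (pre t.2.2.1 x.1, pre t.2.2.2 x.2)

theorem tri_emb {Γ : Type} [Group Γ] [DecidableEq Γ] (ι : Γ →* F × F)
    (hι : Function.Injective ι) (r : ℕ) (A B C : Finset Γ) (f g h : Γ → ℝ)
    (hA : ∀ a ∈ A, max (ι a).1.norm (ι a).2.norm ≤ r)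
    (hf : ∀ a ∈ A, 0 ≤ f a) (hg : ∀ b ∈ B, 0 ≤ g b) (hC : ∀ a ∈ A, ∀ b ∈ B, a * b ∈ C)
    (hh : ∀ c ∈ C, 0 ≤ h c) :
    ∑ a ∈ A, ∑ b ∈ B, f a * g b * h (a * b)
      ≤ ((r : ℝ) + 1) ^ 4 * (Real.sqrt (∑ a ∈ A, f a ^ 2) * Real.sqrt (∑ b ∈ B, g b ^ 2) *
        Real.sqrt (∑ c ∈ C, h c ^ 2)) := by
  classical
  rw [← TT_card]
  refine many_types_sub ι hι (TT r) PP QQ A B f g h hf hg C hC hh ?_
  intro a ha y
  have hL := hA a ha
  have hL1 : (ι a).1.norm ≤ r := le_trans (le_max_left _ _) hL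
  have hL2 : (ι a).2.norm ≤ r := le_trans (le_max_right _ _) hL
  obtain ⟨i, j, hi, hj, e1, e2⟩ := cancel (ι a).1 y.1
  obtain ⟨i', j', hi', hj', e1', e2'⟩ := cancel (ι a).2 y.2
  refine ⟨(i, i', j, j'), ?_, ?_, ?_⟩
  · simp only [TT, Finset.mem_product, Finset.mem_range]
    omega
  · apply Prod.ext
    · exact e1
    · exact e1'
  · apply Prod.ext
    · exact e2
    · exact e2'

theorem tri_gam (r : ℕ) (A B C : Finset Gam) (f g h : Gam → ℝ) (hA : ∀ a ∈ A, LL a ≤ r)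
    (hf : ∀ a ∈ A, 0 ≤ f a) (hg : ∀ b ∈ B, 0 ≤ g b) (hC : ∀ a ∈ A, ∀ b ∈ B, a * b ∈ C)
    (hh : ∀ c ∈ C, 0 ≤ h c) :
    ∑ a ∈ A, ∑ b ∈ B, f a * g b * h (a * b)
      ≤ ((r : ℝ) + 1) ^ 4 * (Real.sqrt (∑ a ∈ A, f a ^ 2) * Real.sqrt (∑ b ∈ B, g b ^ 2) *
        Real.sqrt (∑ c ∈ C, h c ^ 2)) := by
  exact tri_emb Gam.subtype Gam.subtype_injective r A B C f g h hA hf hg hC hh

end Pool.Agent.Helper23.RDGam
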