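import Mathlib
import Pool.Agent.Helper23.Twist

set_option autoImplicit false

/-!
The topology on the ambient group `GG`.
-/

namespace Pool.Agent.Helper23.Top

open Pool.Agent.Helper23.Twist

instance : TopologicalSpace F := ⊥
instance : DiscreteTopology F := ⟨rfl⟩

lemma cont_sh (n : ℤ) : Continuous (sh n) :=
  continuous_pi fun h => continuous_apply (h + n)

lemma cont_act (p : F) : Continuous (fun k : K => act k p) := by
  refine F_induction (C := fun p => Continuous (fun k : K => act k p)) ?_ ?_ ?_ ?_ p
  · simp only [act_one]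
    exact continuous_const
  · intro i
    simp only [act_of]
    have h : Continuous (fun x : ZMod 2 => (FreeGroup.of (i + x) : F)) :=
      continuous_of_discreteTopology
    exact h.comp (continuous_apply (1 : ℤ))
  · intro p hp
    simp only [act_inv]
    have h : Continuous (fun x : F => x⁻¹) := continuous_of_discreteTopology
    exact h.comp (hp.comp (cont_sh _))
  · intro p q hp hq
    simp only [act_mul]
    have h : Continuous (fun x : F × F => x.1 * x.2) := continuous_of_discreteTopology
    exact h.comp (hp.prodMk (hq.comp (cont_sh _)))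

lemma cont_ka (x : Gam) : Continuous (fun k : K => ka k x) := by
  apply Continuous.subtype_mk
  exact (cont_act _).prodMk (cont_act _)

lemma cont_ka2 : Continuous (fun p : K × Gam => ka p.1 p.2) :=
  continuous_prod_of_discrete_right.mpr fun b => cont_ka b

lemma cont_sh2 : Continuous (fun p : K × Gam => sh (hg p.2) p.1) :=
  continuous_prod_of_discrete_right.mpr fun b => cont_sh (hg b)

lemma cont_sh3 : Continuous (fun p : K × Gam => sh (-hg p.2) p.1) :=
  continuous_prod_of_discrete_right.mpr fun b => cont_sh (-hg b)

instance : TopologicalSpace GG := TopologicalSpace.induced (fun a => (a.g, a.k)) inferInstance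

lemma cont_pair : Continuous (fun a : GG => (a.g, a.k)) := continuous_induced_dom

lemma cont_g : Continuous (fun a : GG => a.g) := continuous_fst.comp cont_pair
lemma cont_k : Continuous (fun a : GG => a.k) := continuous_snd.comp cont_pair

lemma cont_mk {X : Type} [TopologicalSpace X] {u : X → Gam} {v : X → K} (hu : Continuous u)
    (hv : Continuous v) : Continuous (fun x => (⟨u x, v x⟩ : GG)) :=
  continuous_induced_rng.mpr (hu.prodMk hv)

/-- the homeomorphism with the product -/
def homeo : GG ≃ₜ Gam × K where
  toFun a := (a.g, a.k)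
  invFun p := ⟨p.1, p.2⟩
  left_inv _ := rfl
  right_inv _ := rfl
  continuous_toFun := cont_pair
  continuous_invFun := cont_mk continuous_fst continuous_snd

lemma cont_mul_gam : Continuous (fun p : Gam × Gam => p.1 * p.2) := continuous_of_discreteTopology
lemma cont_inv_gam : Continuous (fun p : Gam => p⁻¹) := continuous_of_discreteTopology

instance : IsTopologicalGroup GG where
  continuous_mul := by
    have h1 : Continuous (fun p : GG × GG => p.1.g * ka p.1.k p.2.g) :=
      cont_mul_gam.comp ((cont_g.comp continuous_fst).prodMk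
        (cont_ka2.comp ((cont_k.comp continuous_fst).prodMk (cont_g.comp continuous_snd))))
    have h2 : Continuous (fun p : GG × GG => sh (hg p.2.g) p.1.k + p.2.k) :=
      (cont_sh2.comp ((cont_k.comp continuous_fst).prodMk (cont_g.comp continuous_snd))).add
        (cont_k.comp continuous_snd)
    exact cont_mk h1 h2
  continuous_inv := by
    have h1 : Continuous (fun a : GG => ka a.k a.g⁻¹) :=
      cont_ka2.comp (cont_k.prodMk (cont_inv_gam.comp cont_g))
    have h2 : Continuous (fun a : GG => sh (-hg a.g) a.k) :=
      cont_sh3.comp (cont_k.prodMk cont_g)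
    exact cont_mk h1 h2

instance : LocallyCompactSpace GG := homeo.isClosedEmbedding.locallyCompactSpace

instance : T2Space GG := homeo.symm.t2Space

/-- the compact open subgroup, as a set -/
def K0 : Set GG := {a | a.g = 1}

lemma K0_compact : IsCompact K0 := by
  have h : K0 = (fun k : K => (⟨1, k⟩ : GG)) '' Set.univ := by
    ext a
    constructor
    · intro ha
      refine ⟨a.k, trivial, ?_⟩
      apply GG.ext
      · exact ha.symm
      · rfl
    · rintro ⟨k, _, rfl⟩
      rfl
  rw [h]
  exact isCompact_univ.image (cont_mk continuous_const continuous_id)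

instance : DiscreteTopology GamG := by
  have hc : Continuous (fun a : GamG => a.1.g) := cont_g.comp continuous_subtype_val
  refine DiscreteTopology.of_continuous_injective hc ?_
  intro a b h
  apply Subtype.ext
  apply GG.ext h
  rw [show a.1.k = 0 from a.2, show b.1.k = 0 from b.2]

instance : DiscreteTopology LamG := by
  have hc : Continuous (fun a : LamG => a.1.g) := cont_g.comp continuous_subtype_val
  refine DiscreteTopology.of_continuous_injective hc ?_
  intro a b h
  apply Subtype.ext
  apply GG.ext h
  rw [show a.1.k = kap a.1.g from a.2, show b.1.k = kap b.1.g from b.2]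
  exact congrArg kap h

lemma K0_inv {a : GG} (ha : a ∈ K0) : a⁻¹ ∈ K0 := by
  show (a⁻¹).g = 1
  rw [GG.inv_g, show a.g = 1 from ha, inv_one, ka_one]

lemma compact_quot (H : Subgroup GG) (h : ∀ a : GG, ∃ b ∈ H, ∃ c ∈ K0, a = b * c) :
    CompactSpace (GG ⧸ H) := by
  constructor
  have e : (Set.univ : Set (GG ⧸ H)) = (QuotientGroup.mk : GG → GG ⧸ H) '' K0 := by
    symm
    rw [Set.eq_univ_iff_forall]
    intro x
    induction x using QuotientGroup.induction_on with
    | H a =>
      obtain ⟨b, hb, c, hc, h1⟩ := h a⁻¹
      refine ⟨c⁻¹, K0_inv hc, ?_⟩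
      rw [QuotientGroup.eq]
      have h2 : a = c⁻¹ * b⁻¹ := by rw [← mul_inv_rev, ← h1, inv_inv]
      rw [h2]
      simpa using hb
  rw [e]
  exact K0_compact.image QuotientGroup.continuous_mk

instance : CompactSpace (GG ⧸ GamG) := compact_quot _ fun a => by
  refine ⟨⟨a.g, 0⟩, rfl, ⟨1, a.k⟩, rfl, ?_⟩
  apply GG.ext <;> simp

instance : CompactSpace (GG ⧸ LamG) := compact_quot _ fun a => by
  refine ⟨⟨a.g, kap a.g⟩, rfl, ⟨1, kap a.g + a.k⟩, rfl, ?_⟩
  apply GG.ext
  · simp
  · simp only [GG.mul_k, hg_one, sh_zero, ← add_assoc, K_add_self, zero_add]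

/-- the embedding of the base group -/
def emb : Gam →* GG where
  toFun x := ⟨x, 0⟩
  map_one' := rfl
  map_mul' x y := by apply GG.ext <;> simp

lemma compactly_generated : ∃ Q : Set GG, IsCompact Q ∧ Subgroup.closure Q = ⊤ := by
  refine ⟨K0 ∪ emb '' S0, K0_compact.union (S0_finite.image _).isCompact, ?_⟩
  rw [eq_top_iff]
  intro a _
  have h1 : emb a.g ∈ Subgroup.closure (K0 ∪ emb '' S0) := by
    have h2 : a.g ∈ Subgroup.closure S0 := by rw [S0_gen]; trivial
    have h3 : emb a.g ∈ (Subgroup.closure S0).map emb := Subgroup.mem_map_of_mem _ h2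
    rw [MonoidHom.map_closure] at h3
    exact Subgroup.closure_mono Set.subset_union_right h3
  have h2 : (⟨1, a.k⟩ : GG) ∈ Subgroup.closure (K0 ∪ emb '' S0) :=
    Subgroup.subset_closure (Or.inl rfl)
  have h3 : a = emb a.g * ⟨1, a.k⟩ := by
    apply GG.ext <;> simp [emb]
  rw [h3]
  exact mul_mem h1 h2

end Pool.Agent.Helper23.Top
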